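import Mathlib
import Pool.Agent.TH776.FL.Main
import Pool.Agent.Run7.h237.AR.Len4
import Pool.Agent.Run7.h237.AR.Dist

/-!
# The Tate conjecture in all codimensions for powers of abelian varieties, from one Frobenius torus of
# large rank, or from one reduction without exotic Tate classes of codimension two

Let `A` be an abelian variety over a number field (or a field finitely generated over `ℚ`). Suppose
that at ONE place of good reduction, with residue field of `q = p ^ a` elements, one of the following
is true.

* (Large rank) The characteristic polynomial of Frobenius is the product of the minimal polynomials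
  of Weil numbers `π i` in CM fields `F i` of degree `2 * g i`, and for every nonempty set `J` of
  indices the rank `ρ_J` of the multiplicative group generated by the conjugates of the `π i ^ 2 / q`,
  `i ∈ J`, is greater than three quarters of its maximal value `g_J = ∑ g i`, `i ∈ J`. Nothing is
  assumed about slopes and Galois groups.
* (Codimension two) The characteristic polynomial `P` of Frobenius is irreducible over `ℚ`, the
  reduction `A_v` has no exotic classes in codimension one (if the product of two roots of `P` is
  `q` times a root of unity, it is `q`) and none in codimension two ON `A_v` ITSELF: if the product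
  of four DISTINCT roots is `q ^ 2` times a root of unity, they form two pairs with product `q`.

Then

1. if the Rosati involution is trivial on the endomorphisms of `A` over the algebraic closure (for
   instance `End(A) = ℤ`, or `A` simple of type I in the classification of Albert), the Tate
   conjecture is true in ALL codimensions for all powers of `A`: all Tate classes are linear
   combinations of products of classes of degree two, that is, of divisors (Faltings). Note that the
   reduction `A_v` may have exotic Tate classes in higher codimension;
2. for every `A` and every codimension `m` for which the nonzero symmetric Tate forms with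
   coefficients in finite extensions of `ℚ_ℓ` have rank greater than `4 m`, the Tate classes of
   codimension `m` on all powers of `A` are linear combinations of products of divisors.

The bound `3/4` cannot be replaced by `≥ 3/4`: for the fourfolds of Mumford (`End(A) = ℤ`) the rank
is `3` and there are exotic Tate classes on `A ^ 2`.

Ideas. Large rank: the multiplicative relations between the conjugates span a Galois invariant space
of dimension `g - ρ`; a projector with constant diagonal `(g - ρ) / g` shows that a relation has
length greater than four. So all relations of length four are trivial. Codimension two: the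
relations `x ^ 2 y z = q ^ 2` with repeated roots, which are not visible on `A_v` but on its square,
are excluded by comparing the mean squares over the Galois orbit of all homomorphisms from the group
of units of the splitting field to `ℚ`. In both cases earlier theorems of this repository
(`codimension_of_four`, `tate_of_rosati`) apply.

In the Lean statement `V` is the rational Tate module with the action `ρ` of the Galois group `Γ`,
`ω` is the Weil pairing of a polarization, `χ` is the cyclotomic character and `γ` the (arithmetic)
Frobenius element at the place. Semisimplicity of `V` is the theorem of Faltings.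
-/

set_option autoImplicit false

namespace Pool.Agent.Results.MP_938ce2_ag.LargeRankOrCodimensionTwo

open NumberField Module Polynomial Pool.Agent.H204R3.GP Pool.Agent.W516.FT Pool.Agent.TH776.FL
  Pool.Agent.TH776.FM

/-- The angle rank: the rank of the multiplicative group generated by the complex numbers
`φ (π i) ^ 2 / q`, where `φ` runs through the complex embeddings of the fields `F i`. -/
noncomputable def angleRank {ι : Type*} {F : ι → Type*} [∀ i, Field (F i)] (q : ℝ)
    (π : ∀ i, F i) : ℕ :=
  finrank ℤ (Submodule.span ℤ {u : Additive ℂˣ | ∃ (i : ι) (φ : F i →+* ℂ),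
    ((u.toMul : ℂˣ) : ℂ) = φ (π i) ^ 2 / q})

/-- The polynomial `P` is the product of the minimal polynomials of Weil `p ^ a`-numbers in CM
fields, and for every nonempty set of them the angle rank is greater than three quarters of its
maximal possible value. -/
def LargeRank (p a : ℕ) (P : ℚ[X]) : Prop :=
  ∃ (ι : Type) (_ : Fintype ι) (F : ι → Type) (_ : ∀ i, Field (F i)) (_ : ∀ i, NumberField (F i))
    (_ : ∀ i, IsCMField (F i)) (π : ∀ i, F i) (g : ι → ℕ),
    (∀ i, finrank ℚ (F i) = 2 * g i) ∧
    (∀ i, π i * IsCMField.complexConj (F i) (π i) = (p : F i) ^ a) ∧
    P = ∏ i, minpoly ℚ (π i) ∧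
    ∀ J : Finset ι, J.Nonempty →
      3 * ∑ i ∈ J, g i < 4 * angleRank ((p : ℝ) ^ a) (fun i : J => π i)

/-- The polynomial `P` is irreducible, the product of two complex roots is `q` times a root of
unity only if it is `q`, and four DISTINCT complex roots with product `q ^ 2` times a root of unity
form two pairs with product `q`. -/
def CodimensionTwo (q : ℕ) (P : ℚ[X]) : Prop :=
  Irreducible P ∧
  (∀ M : ℕ, 0 < M → ∀ x ∈ P.rootSet ℂ, ∀ y ∈ P.rootSet ℂ, (x * y) ^ M = (q : ℂ) ^ M → x * y = q) ∧
  ∀ M : ℕ, 0 < M → ∀ x ∈ P.rootSet ℂ, ∀ y ∈ P.rootSet ℂ, ∀ z ∈ P.rootSet ℂ, ∀ w ∈ P.rootSet ℂ,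
    [x, y, z, w].Nodup → (x * y * z * w) ^ M = (q : ℂ) ^ (2 * M) →
      (x * y = q ∧ z * w = q) ∨ (x * z = q ∧ y * w = q) ∨ (x * w = q ∧ y * z = q)

/-- Tate classes on all powers of an abelian variety are generated in degree two, if one Frobenius
element has large angle rank, or the reduction has no exotic Tate classes in codimension two. -/
theorem result (ℓ p : ℕ) [Fact ℓ.Prime] [Fact p.Prime] (a : ℕ)
    {V Γ : Type} [AddCommGroup V] [Module ℚ_[ℓ] V] [FiniteDimensional ℚ_[ℓ] V] [Group Γ]
    (ρ : Representation ℚ_[ℓ] Γ V) (χ : Γ →* ℚ_[ℓ]) (ω : V →ₗ[ℚ_[ℓ]] V →ₗ[ℚ_[ℓ]] ℚ_[ℓ])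
    (hA : IsTateModule ρ χ ω)
    (γ : Γ) (hχ : χ γ = (p ^ a : ℕ)) (P : ℚ[X]) (hγ : (ρ γ).charpoly = P.map (algebraMap ℚ ℚ_[ℓ]))
    (hP : LargeRank p a P ∨ CodimensionTwo (p ^ a) P) :
    (RosatiTrivial ρ ω → TateGeneratedInDegreeTwo ρ χ) ∧
    ∀ m : ℕ, SymmetricTateFormsHaveRankGreaterThan ρ χ (4 * m) → GeneratedInCodimension ρ χ m := by
  have key : P.Separable ∧ OnlyTrivialRelationsOfLengthFour P (p ^ a) := by
    rcases hP with ⟨ι, _, F, _, _, _, π, g, hg, hw, rfl, hr⟩ | ⟨hirr, H2, H4⟩
    · have hg' : ∀ i, finrank ℚ (maximalRealSubfield (F i)) = g i := by
        intro i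
        have h0 : finrank (maximalRealSubfield (F i)) (F i) = 2 :=
          Algebra.IsQuadraticExtension.finrank_eq_two _ _
        have h1 := finrank_mul_finrank ℚ (maximalRealSubfield (F i)) (F i)
        rw [h0, hg i] at h1
        omega
      refine Run7.h237.AR.onlyTrivial_of_rank hw (fun J hJ => ?_)
      simp only [hg']
      have h1 := hr J hJ
      have h2 : 0 < ∑ i ∈ J, g i := by
        refine Finset.sum_pos (fun i _ => ?_) hJ
        rw [← hg' i]
        exact finrank_pos
      change 4 * (∑ i ∈ J, g i - angleRank ((p : ℝ) ^ a) (fun i : J => π i)) < ∑ i ∈ J, g i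
      omega
    · exact ⟨hirr.separable, Run7.h237.AR.onlyTrivial_of_distinct hirr
        (pow_pos (Fact.out : p.Prime).pos a) H2 H4⟩
  exact ⟨fun hR => tate_of_rosati hA hχ key.1 hγ key.2 hR,
    fun m hm => codimension_of_four hA hχ key.1 hγ key.2 hm⟩

end Pool.Agent.Results.MP_938ce2_ag.LargeRankOrCodimensionTwo
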