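import Mathlib
import Pool.Agent.TH776.FM.MTDefs
import Pool.Agent.W516.MT.AllFinal
import Pool.Agent.Run7.h237.AR.Len4
import Pool.Agent.Run7.h237.AR.Dist

/-!
# The Mumford-Tate conjecture for abelian varieties of any type, from one Frobenius torus of large
# rank, or from one reduction without exotic Tate classes of codimension two

Let `A` be ANY abelian variety over a finitely generated subfield of the complex numbers (there is
no condition on the endomorphisms, factors of type IV are allowed). Suppose that at ONE place of
good reduction, with residue field of `q = p ^ a` elements, one of the following is true.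

* (Large rank) The characteristic polynomial of Frobenius is the product of the minimal polynomials
  of Weil numbers `π i` in CM fields `F i` of degree `2 * g i`, and for every nonempty set `J` of
  indices the rank `ρ_J` of the multiplicative group generated by the conjugates of the `π i ^ 2 / q`,
  `i ∈ J`, is greater than three quarters of its maximal value `g_J = ∑ g i`, `i ∈ J`. Nothing is
  assumed about slopes and Galois groups.
* (Codimension two) The characteristic polynomial `P` of Frobenius is irreducible over `ℚ`, the
  reduction `A_v` has no exotic classes in codimension one (if the product of two roots of `P` is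
  `q` times a root of unity, it is `q`) and none in codimension two ON `A_v` ITSELF: if the product
  of four DISTINCT roots is `q ^ 2` times a root of unity, they form two pairs with product `q`.

Then all Tate classes in all spaces `(H^1)^{⊗ 2 n}(n)`, so in the cohomology of all powers of `A`,
are linear combinations of Hodge classes. Together with the theorem of Deligne this is the
conjecture of Mumford and Tate for `A` and all its powers.

The bound `3/4` cannot be improved to `≥ 3/4` with this method: for the fourfolds of Mumford the
rank is `3` for all places and there are exotic relations of length four.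

Ideas. Large rank: a multiplicative relation between the conjugates is an odd function `c` on the
embeddings whose Galois translates span a space of dimension at most the defect `g - ρ`; a
translate-invariant space of dimension `d` on the `g` pairs has a projector with constant diagonal
`d / g`, so that `c` has support of at least `g / d > 4` pairs. So all relations of length four are
trivial. Codimension two: the relations `x ^ 2 y z = q ^ 2` with repeated roots, which are not
visible on `A_v` but on its square, are excluded by comparing the mean squares over the Galois orbit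
of all homomorphisms from the group of units of the splitting field to `ℚ`. In both cases an
earlier theorem of this repository (`mt_of_four`) applies.
-/

set_option autoImplicit false

namespace Pool.Agent.Results.MP_b8862a_ag.LargeRankOrCodimensionTwo

open NumberField Module TensorProduct Polynomial Pool.Agent.H204R3.GP Pool.Agent.W516.MTD
  Pool.Agent.TH776.FM

/-- The angle rank: the rank of the multiplicative group generated by the complex numbers
`φ (π i) ^ 2 / q`, where `φ` runs through the complex embeddings of the fields `F i`. -/
noncomputable def angleRank {ι : Type*} {F : ι → Type*} [∀ i, Field (F i)] (q : ℝ)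
    (π : ∀ i, F i) : ℕ :=
  finrank ℤ (Submodule.span ℤ {u : Additive ℂˣ | ∃ (i : ι) (φ : F i →+* ℂ),
    ((u.toMul : ℂˣ) : ℂ) = φ (π i) ^ 2 / q})

/-- The polynomial `P` is the product of the minimal polynomials of Weil `p ^ a`-numbers in CM
fields, and for every nonempty set of them the angle rank is greater than three quarters of its
maximal possible value. -/
def LargeRank (p a : ℕ) (P : ℚ[X]) : Prop :=
  ∃ (ι : Type) (_ : Fintype ι) (F : ι → Type) (_ : ∀ i, Field (F i)) (_ : ∀ i, NumberField (F i))
    (_ : ∀ i, IsCMField (F i)) (π : ∀ i, F i) (g : ι → ℕ),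
    (∀ i, finrank ℚ (F i) = 2 * g i) ∧
    (∀ i, π i * IsCMField.complexConj (F i) (π i) = (p : F i) ^ a) ∧
    P = ∏ i, minpoly ℚ (π i) ∧
    ∀ J : Finset ι, J.Nonempty →
      3 * ∑ i ∈ J, g i < 4 * angleRank ((p : ℝ) ^ a) (fun i : J => π i)

/-- The polynomial `P` is irreducible, the product of two complex roots is `q` times a root of
unity only if it is `q`, and four DISTINCT complex roots with product `q ^ 2` times a root of unity
form two pairs with product `q`. -/
def CodimensionTwo (q : ℕ) (P : ℚ[X]) : Prop :=
  Irreducible P ∧
  (∀ M : ℕ, 0 < M → ∀ x ∈ P.rootSet ℂ, ∀ y ∈ P.rootSet ℂ, (x * y) ^ M = (q : ℂ) ^ M → x * y = q) ∧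
  ∀ M : ℕ, 0 < M → ∀ x ∈ P.rootSet ℂ, ∀ y ∈ P.rootSet ℂ, ∀ z ∈ P.rootSet ℂ, ∀ w ∈ P.rootSet ℂ,
    [x, y, z, w].Nodup → (x * y * z * w) ^ M = (q : ℂ) ^ (2 * M) →
      (x * y = q ∧ z * w = q) ∨ (x * z = q ∧ y * w = q) ∨ (x * w = q ∧ y * z = q)

/-- The Mumford-Tate conjecture for abelian varieties of any type, from one Frobenius element with
large angle rank, or whose reduction has no exotic Tate classes in codimension two. -/
theorem result (ℓ p : ℕ) [Fact ℓ.Prime] [Fact p.Prime] (a : ℕ)
    {H T Γ : Type} [AddCommGroup H] [Module ℚ H] [FiniteDimensional ℚ H] [AddCommGroup T]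
    [Module ℂ T] [Group Γ] (per : H →+ T) (ω₀ : H →ₗ[ℚ] H →ₗ[ℚ] ℚ)
    (ρ : Representation ℚ_[ℓ] Γ (ℚ_[ℓ] ⊗[ℚ] H)) (χ : Γ →* ℚ_[ℓ])
    (ω : ℚ_[ℓ] ⊗[ℚ] H →ₗ[ℚ_[ℓ]] ℚ_[ℓ] ⊗[ℚ] H →ₗ[ℚ_[ℓ]] ℚ_[ℓ])
    (hA : IsAbelianVariety per ω₀ ρ χ ω)
    (γ : Γ) (hχ : χ γ = (p ^ a : ℕ)) (P : ℚ[X]) (hγ : (ρ γ).charpoly = P.map (algebraMap ℚ ℚ_[ℓ]))
    (hP : LargeRank p a P ∨ CodimensionTwo (p ^ a) P)
    (n : ℕ) (φ : MultilinearMap ℚ_[ℓ] (fun _ : Fin n × Fin 2 => ℚ_[ℓ] ⊗[ℚ] H) ℚ_[ℓ])
    (hφ : IsTateTensor ρ χ n φ) : IsHodgeCombination per φ := by
  have key : P.Separable ∧ Pool.Agent.W516.FT.OnlyTrivialRelationsOfLengthFour P (p ^ a) := by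
    rcases hP with ⟨ι, _, F, _, _, _, π, g, hg, hw, rfl, hr⟩ | ⟨hirr, H2, H4⟩
    · have hg' : ∀ i, finrank ℚ (maximalRealSubfield (F i)) = g i := by
        intro i
        have h0 : finrank (maximalRealSubfield (F i)) (F i) = 2 :=
          Algebra.IsQuadraticExtension.finrank_eq_two _ _
        have h1 := finrank_mul_finrank ℚ (maximalRealSubfield (F i)) (F i)
        rw [h0, hg i] at h1
        omega
      refine Run7.h237.AR.onlyTrivial_of_rank hw (fun J hJ => ?_)
      simp only [hg']
      have h1 := hr J hJ
      have h2 : 0 < ∑ i ∈ J, g i := by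
        refine Finset.sum_pos (fun i _ => ?_) hJ
        rw [← hg' i]
        exact finrank_pos
      change 4 * (∑ i ∈ J, g i - angleRank ((p : ℝ) ^ a) (fun i : J => π i)) < ∑ i ∈ J, g i
      omega
    · exact ⟨hirr.separable, Run7.h237.AR.onlyTrivial_of_distinct hirr
        (pow_pos (Fact.out : p.Prime).pos a) H2 H4⟩
  exact Pool.Agent.W516.MTM.mt_of_four per ρ χ ω₀ ω hA.hodge
    (fun u v => by rw [hA.compatible, eq_ratCast]) hA.similitude hA.deligne hA.rational hA.alt
    hA.nondeg hA.semisimple hA.faltings hA.centres γ hχ key.1 hγ key.2 n φ hφ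

end Pool.Agent.Results.MP_b8862a_ag.LargeRankOrCodimensionTwo
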